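import Pool.Agent.L7h5.SP.Stm
import Pool.Agent.K4H33.SK.Zeta
import Pool.Agent.K4H33.SK.Prime
import Pool.Agent.L7h10.RQ.Add

/-! # Project SP, part ZZ -/

set_option autoImplicit false

namespace Pool.Agent.L7h77.SP
open NumberField Module IntermediateField
open Pool.Agent.K4H33.SK (Qbar GQ Fixes IsZeta AbelianRoot Fixes.mul Fixes.inv cnt_prime
  hasSum_shift)
open Pool.Agent.K4H33.SK.Stmt (Sub Ideals nrm Cop IsArtin cnt cntAll)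
open Pool.Agent.L7h10.RQ (IsAbelian StarkReal0)
open Pool.Agent.L7h5.SP

lemma fixes_pow {F : Sub} {ρ : GQ} (h : Fixes F ρ) (n : ℕ) : Fixes F (ρ ^ n) := by
  induction n with
  | zero => intro x _; rfl
  | succ n ih =>
    rw [pow_succ]
    exact ih.mul h

lemma exists_pow {H : Sub} (hfin : FiniteDimensional ℚ H) (ρ : GQ) :
    ∃ g : ℕ, 0 < g ∧ Fixes H (ρ ^ g) := by
  have hF : Finite (H →ₐ[ℚ] Qbar) := inferInstance
  obtain ⟨m, n, hmn, he⟩ := Finite.exists_ne_map_eq_of_infinite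
    (fun n : ℕ => ((ρ ^ n : GQ) : Qbar →ₐ[ℚ] Qbar).comp H.val)
  wlog hlt : m < n generalizing m n with hw
  · exact hw n m hmn.symm he.symm (lt_of_le_of_ne (not_lt.1 hlt) hmn.symm)
  refine ⟨n - m, Nat.sub_pos_of_lt hlt, ?_⟩
  intro x hx
  have h1 : (ρ ^ m : GQ) x = (ρ ^ n : GQ) x := DFunLike.congr_fun he (⟨x, hx⟩ : H)
  have h2 : (ρ ^ n : GQ) = ρ ^ m * ρ ^ (n - m) := by
    rw [← pow_add]
    congr 1
    omega
  rw [h2, AlgEquiv.mul_apply] at h1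
  exact ((ρ ^ m : GQ).injective h1).symm

lemma exists_pow2 {H : Sub} (hfin : FiniteDimensional ℚ H) (ρ ρ' : GQ) :
    ∃ g : ℕ, 0 < g ∧ Fixes H (ρ ^ g) ∧ Fixes H (ρ' ^ g) := by
  obtain ⟨g, hg, h1⟩ := exists_pow hfin ρ
  obtain ⟨g', hg', h2⟩ := exists_pow hfin ρ'
  refine ⟨g * g', Nat.mul_pos hg hg', ?_, ?_⟩
  · rw [pow_mul]
    exact fixes_pow h1 g'
  · rw [mul_comm, pow_mul]
    exact fixes_pow h2 g

lemma cnt_le_all {F H : Sub} [NumberField F] (𝔣 : Ideals F) (art : Ideals F → GQ) (σ : GQ)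
    (n : ℕ) : cnt F H 𝔣 art σ n ≤ cntAll F n := by
  unfold cnt cntAll
  have hfin : Finite {𝔟 : Ideals F // nrm F 𝔟 = n} :=
    (Ideal.finite_setOfPred_absNorm_eq n).to_subtype
  exact Nat.card_le_card_of_injective
    (fun b : {𝔟 : Ideals F // nrm F 𝔟 = n ∧ Cop F 𝔟 𝔣 ∧ ∀ x ∈ H, art 𝔟 x = σ x} =>
      (⟨b.1, b.2.1⟩ : {𝔟 : Ideals F // nrm F 𝔟 = n}))
    (fun a b hab => Subtype.ext (congrArg (fun z : {𝔟 : Ideals F // nrm F 𝔟 = n} => z.1) hab))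

lemma hasSum_cnt {F H : Sub} [NumberField F] (𝔣 : Ideals F) (art : Ideals F → GQ)
    (hs : ∀ s : ℂ, 1 < s.re → LSeriesSummable (fun n => (cntAll F n : ℂ)) s) (σ : GQ) {s : ℂ}
    (h : 1 < s.re) : LSeriesHasSum (fun n => (cnt F H 𝔣 art σ n : ℂ)) s
      (LSeries (fun n => (cnt F H 𝔣 art σ n : ℂ)) s) := by
  refine LSeriesSummable.LSeriesHasSum ?_
  have h1 : Summable (LSeries.term (fun n => (cntAll F n : ℂ)) s) := hs s h
  refine Summable.of_norm_bounded (g := fun n => ‖LSeries.term (fun n => (cntAll F n : ℂ)) s n‖)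
    h1.norm (fun n => LSeries.norm_term_le s ?_)
  rw [Complex.norm_natCast, Complex.norm_natCast]
  exact_mod_cast cnt_le_all 𝔣 art σ n

lemma nrm_ne {F : Sub} [NumberField F] {P : Ideals F} (hP : P.IsPrime) (hP0 : P ≠ ⊥) :
    2 ≤ nrm F P := by
  have h0 : Ideal.absNorm P ≠ 0 := by
    rw [Ne, Ideal.absNorm_eq_zero_iff]
    exact hP0
  have h1 : Ideal.absNorm P ≠ 1 := by
    rw [Ne, Ideal.absNorm_eq_one_iff]
    exact hP.ne_top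
  show 2 ≤ Ideal.absNorm P
  omega

lemma euler {F H : Sub} [NumberField F] {𝔣 P : Ideals F} {art : Ideals F → GQ}
    (hart : IsArtin F H 𝔣 art) (hP : P.IsPrime) (hP0 : P ≠ ⊥) (hPf : Cop F P 𝔣)
    (hs : ∀ s : ℂ, 1 < s.re → LSeriesSummable (fun n => (cntAll F n : ℂ)) s)
    {ZP : GQ → ℂ → ℂ} {σ : GQ} (hZ : IsZeta (cnt F H (𝔣 * P) art σ) (ZP σ)) {s : ℂ}
    (h : 1 < s.re) :
    LSeries (fun n => (cnt F H 𝔣 art σ n : ℂ)) s =
      ZP σ s + (nrm F P : ℂ) ^ (-s) *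
        LSeries (fun n => (cnt F H 𝔣 art ((art P)⁻¹ * σ) n : ℂ)) s := by
  have hPn : Ideal.absNorm P ≠ 0 := by
    rw [Ne, Ideal.absNorm_eq_zero_iff]
    exact hP0
  have h3 := (hZ.2 s h).add (hasSum_shift hPn (hasSum_cnt (H := H) 𝔣 art hs ((art P)⁻¹ * σ) h))
  refine LSeriesHasSum.LSeries_eq ((LSeriesHasSum_congr s _ (fun {n} _ => ?_)).1 h3)
  have h7 := cnt_prime (L := H) hart.down le_rfl (fun _ h => h) hP hP0 hPf σ n
  have h8 : (cnt F H 𝔣 art σ n : ℂ) = (cnt F H (𝔣 * P) art σ n : ℂ) +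
      ((if Ideal.absNorm P ∣ n then cnt F H 𝔣 art ((art P)⁻¹ * σ) (n / Ideal.absNorm P)
        else 0 : ℕ) : ℂ) := by
    rw [← Nat.cast_add]
    exact congrArg _ h7
  rw [Pi.add_apply, h8]
  push_cast
  split_ifs <;> rfl

lemma telescope {F H : Sub} [NumberField F] {𝔣 P : Ideals F} {art : Ideals F → GQ}
    (hart : IsArtin F H 𝔣 art) (hP : P.IsPrime) (hP0 : P ≠ ⊥) (hPf : Cop F P 𝔣)
    (hs : ∀ s : ℂ, 1 < s.re → LSeriesSummable (fun n => (cntAll F n : ℂ)) s)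
    {ZP : GQ → ℂ → ℂ} (hZ : ∀ σ : GQ, Fixes F σ → IsZeta (cnt F H (𝔣 * P) art σ) (ZP σ))
    {σ : GQ} (hσ : Fixes F σ) {s : ℂ} (h : 1 < s.re) (g : ℕ) :
    LSeries (fun n => (cnt F H 𝔣 art σ n : ℂ)) s =
      ∑ i ∈ Finset.range g, ((nrm F P : ℂ) ^ (-s)) ^ i * ZP ((art P)⁻¹ ^ i * σ) s +
      ((nrm F P : ℂ) ^ (-s)) ^ g *
        LSeries (fun n => (cnt F H 𝔣 art ((art P)⁻¹ ^ g * σ) n : ℂ)) s := by
  have hρ : Fixes F (art P)⁻¹ := Fixes.inv (hart.fix P hPf)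
  induction g with
  | zero => simp
  | succ g ih =>
    rw [ih, Finset.sum_range_succ,
      euler hart hP hP0 hPf hs (hZ ((art P)⁻¹ ^ g * σ) ((fixes_pow hρ g).mul hσ)) h]
    rw [show (art P)⁻¹ * ((art P)⁻¹ ^ g * σ) = (art P)⁻¹ ^ (g + 1) * σ by
      rw [← mul_assoc, ← pow_succ']]
    ring

/-- the right side of the identity -/
noncomputable def WW (N g : ℕ) (ρ σ : GQ) (ZP : GQ → ℂ → ℂ) (s : ℂ) : ℂ :=
  ∑ i ∈ Finset.range g, (N : ℂ) ^ (-((i : ℂ) * s)) * ZP (ρ ^ i * σ) s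

lemma cpow_neg_mul (N i : ℕ) (s : ℂ) :
    (N : ℂ) ^ (-((i : ℂ) * s)) = ((N : ℂ) ^ (-s)) ^ i := by
  rw [← Complex.cpow_nat_mul]
  congr 1
  ring

lemma diff_WW {F H : Sub} [NumberField F] {𝔤 : Ideals F} {art : Ideals F → GQ} {N : ℕ}
    (hN : 2 ≤ N) (g : ℕ) {ρ σ : GQ} (hρ : Fixes F ρ) (hσ : Fixes F σ)
    {ZP : GQ → ℂ → ℂ} (hZ : ∀ σ : GQ, Fixes F σ → IsZeta (cnt F H 𝔤 art σ) (ZP σ)) :
    DifferentiableOn ℂ (WW N g ρ σ ZP) {1}ᶜ := by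
  unfold WW
  refine DifferentiableOn.fun_sum fun i _ => ?_
  have hN0 : (N : ℂ) ≠ 0 := Nat.cast_ne_zero.2 (by omega)
  have hd : Differentiable ℂ (fun s : ℂ => (N : ℂ) ^ (-((i : ℂ) * s))) :=
    ((differentiable_id.const_mul (i : ℂ)).neg).const_cpow (Or.inl hN0)
  exact hd.differentiableOn.mul (hZ _ ((fixes_pow hρ i).mul hσ)).1

lemma main_id {F H : Sub} [NumberField F] {𝔣 P : Ideals F} {art : Ideals F → GQ}
    (hab : IsAbelian F H) (hart : IsArtin F H 𝔣 art) (hP : P.IsPrime) (hP0 : P ≠ ⊥)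
    (hPf : Cop F P 𝔣)
    (hs : ∀ s : ℂ, 1 < s.re → LSeriesSummable (fun n => (cntAll F n : ℂ)) s)
    {ZP : GQ → ℂ → ℂ} (hZ : ∀ σ : GQ, Fixes F σ → IsZeta (cnt F H (𝔣 * P) art σ) (ZP σ))
    {g : ℕ} (hg : Fixes H ((art P)⁻¹ ^ g))
    {σ : GQ} (hσ : Fixes F σ) {s : ℂ} (h : 1 < s.re) :
    (1 - (nrm F P : ℂ) ^ (-((g : ℂ) * s))) *
      LSeries (fun n => (cnt F H 𝔣 art σ n : ℂ)) s = WW (nrm F P) g (art P)⁻¹ σ ZP s := by
  have h1 := telescope hart hP hP0 hPf hs hZ hσ h g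
  have h2 : (fun n => (cnt F H 𝔣 art ((art P)⁻¹ ^ g * σ) n : ℂ)) =
      fun n => (cnt F H 𝔣 art σ n : ℂ) := by
    funext n
    have h3 := Pool.Agent.K4H33.SK.cnt_congr F H 𝔣 art
      (g := (art P)⁻¹ ^ g * σ) (g' := σ) (fun x hx => by
        rw [AlgEquiv.mul_apply]
        exact hg _ (hab.normal σ hσ x hx)) n
    exact congrArg Nat.cast h3
  rw [h2] at h1
  have h4 : WW (nrm F P) g (art P)⁻¹ σ ZP s =
      ∑ i ∈ Finset.range g, ((nrm F P : ℂ) ^ (-s)) ^ i * ZP ((art P)⁻¹ ^ i * σ) s := by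
    unfold WW
    refine Finset.sum_congr rfl fun i _ => ?_
    rw [cpow_neg_mul]
  rw [h4, cpow_neg_mul, sub_mul, one_mul]
  exact sub_eq_of_eq_add h1

theorem s_ZZ (h : S_CONT) : S_ZZ := by
  classical
  intro F H' _ 𝔣 P Q art hab hart _ hP hP0 hPf hQ hQ0 hQf hind hs hZP hZQ
  obtain ⟨ZP, hZP⟩ := hZP
  obtain ⟨ZQ, hZQ⟩ := hZQ
  have hfin : FiniteDimensional ℚ H' := hab.fin
  obtain ⟨g, hg, hgP, hgQ⟩ := exists_pow2 hfin (art P)⁻¹ (art Q)⁻¹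
  have hρP : Fixes F (art P)⁻¹ := Fixes.inv (hart.fix P hPf)
  have hρQ : Fixes F (art Q)⁻¹ := Fixes.inv (hart.fix Q hQf)
  have key : ∀ σ : GQ, Fixes F σ → ∃ Z : ℂ → ℂ, IsZeta (cnt F H' 𝔣 art σ) Z := by
    intro σ hσ
    obtain ⟨Z, hZ1, hZ2⟩ := h (LSeries (fun n => (cnt F H' 𝔣 art σ n : ℂ)))
      (WW (nrm F P) g (art P)⁻¹ σ ZP) (WW (nrm F Q) g (art Q)⁻¹ σ ZQ) (nrm F P) (nrm F Q) g
      (nrm_ne hP hP0) (nrm_ne hQ hQ0) hg hind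
      (diff_WW (nrm_ne hP hP0) g hρP hσ fun τ hτ => (hZP τ hτ).1)
      (diff_WW (nrm_ne hQ hQ0) g hρQ hσ fun τ hτ => (hZQ τ hτ).1)
      (by
        unfold WW
        refine Finset.sum_eq_zero fun i _ => ?_
        rw [(hZP _ ((fixes_pow hρP i).mul hσ)).2, mul_zero])
      (by
        unfold WW
        refine Finset.sum_eq_zero fun i _ => ?_
        rw [(hZQ _ ((fixes_pow hρQ i).mul hσ)).2, mul_zero])
      (fun s hs1 => main_id hab hart hP hP0 hPf hs (fun τ hτ => (hZP τ hτ).1) hgP hσ hs1)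
      (fun s hs1 => main_id hab hart hQ hQ0 hQf hs (fun τ hτ => (hZQ τ hτ).1) hgQ hσ hs1)
    refine ⟨Z, hZ1, fun s hs1 => ?_⟩
    rw [hZ2 s hs1]
    exact hasSum_cnt 𝔣 art hs σ hs1
  refine ⟨fun σ => if hσ : Fixes F σ then (key σ hσ).choose else 0, fun σ hσ => ?_⟩
  simp only [dif_pos hσ]
  exact (key σ hσ).choose_spec

end Pool.Agent.L7h77.SP
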